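import Pool.Agent.Helper65.BR.Cache

open Pool.Agent.Helper65.LinSpace Pool.Agent.Helper78.Mpc
open Pool.Agent.Helper65.BR (Reader)
open Pool.Agent.Helper31.Gen5 (Hard)
open Pool.Agent.Helper81.RP (Ins)
open Pool.Agent.Helper81.Gen4 (Q)

namespace Pool.Agent.Results.MP_c578c8_lc.CacheMisses

/-- **Access to the memory is a bottleneck.** Let `c > 0`. There is a language `L` in `DSPACE(n)` which
is hard (`Gen5.Hard`) for three kinds of machines with costly reading, all other work being free. `l` is
of the order of the logarithm of all addresses and of `n`.

* Programs of random access machines (`Ins`, with the operations `+`, `-`, `*`, `/`) with a cache of `k`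
  lines of `B` registers. Registers are loaded from lines which are in the cache; when a line is brought
  into the cache is arbitrary, the replacement may depend on the future (`IC.Served`). Stores, arithmetic,
  letters and the time are free. `IC.Within`: the program accepts with `x` transfers of lines,
  `x ^ 2 B s l ^ 4 ≤ C (n + 1) ^ 3` and `k B s l ^ 4 ≤ C (n + 1)`, all numbers being less than `2 ^ s`,
  `l = b + ⌊log₂ n⌋ + 1` if only registers with numbers less than `2 ^ b` are loaded. For example, with
  numbers of `O(log n)` bits, a cache of `C n / log ^ 4 n` bits does not help: with lines of `B` registers
  `C n ^ (3 / 2) / (√B log ^ (5 / 2) n)` transfers are not sufficient.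
* The same programs with cursors instead of a cache. Every instruction `Ri := R(Rj)` has a cursor, that is
  the last register which it loaded. Only steps which change a cursor are counted: `M` is the number of
  these steps, and `J` is the number of those in which the number of the register changes by more than
  `d`. `RR.Within`: the program accepts with `M (J + n + 1) s l ^ 4 ≤ C (n + 1) ^ 3` and
  `s l ^ 4 ≤ C (n + 1)`. For example, with numbers of `O(log n)` bits and
  `M (J + n) ≤ C n ^ 3 / log ^ 5 n`; so `C n ^ (3 / 2) / log ^ (5 / 2) n` loads are not sufficient, nor are
  `C n ^ 2 / log ^ 5 n` loads if all but `O(n)` of them are next to the previous load of the same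
  instruction.
* Machines with `K` reading heads on one memory of arrays (`Reader K`). In one step all cells can be
  changed at once, by any function computed in linear space, and so can the state of `s` bits; but a
  head reads only the cell on which it stands. The time is not bounded; counted are only the moves `M`
  of the heads, and the jumps `J`, that is, the moves to a cell which is not a neighbour. `Within`: the
  machine accepts with `M (J + n + 1) (a + 1) l ^ 4 ≤ C (n + 1) ^ 3` and `(s + a + l) l ^ 4 ≤ C (n + 1)`,
  where cells contain at most `a` bits.

All machines have a second word `y`, which is either an advice word `α` that depends only on the length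
of `w`, or `α t u v` with three words of length `c |w|` and the acceptance condition `Q`: the letters of
`t` are chosen in turn by two players, then `u` is random, then again the letters of `v` are chosen in
turn, and more than half of the words `u` must be good for the first player. For every machine and every
`C` we have `Hard`, that is, there is a `c'` such that for `X = L` and for the complement `X` of `L`, for
all `n` and `α`, `m = |α|`: the machine is correct for `X` within the bounds on at most
`2^n / 2 + c' (m + 1) 2^((n + m / c) / 2)` words of length `n`; if it accepts `e` words of length `n` which
are not in `X`, then it accepts within the bounds at most `(√e + c' (m + 1) 2^(m / (2 c)))^2` words of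
length `n` in `X`; if (without advice) it accepts only finitely many words which are not in `X`, then it
accepts only finitely many words within the bounds. So no such machine which accepts exactly the words of
`L` is within the bounds on infinitely many words of `L`. -/
theorem result (c : ℕ) (hc : 0 < c) :
    ∃ L : Set (List Bool), DLINSPACE L ∧
      (∀ (P : List Ins) (C : ℝ),
        Hard L c (fun w α => ∃ t, Pool.Agent.Helper81.RP.AcceptsAt P w α t)
          (Pool.Agent.Helper81.IC.Within P C) ∧
        Hard L c (fun w α => Q (c * w.length) fun v =>
            ∃ t, Pool.Agent.Helper81.RP.AcceptsAt P w (α ++ v) t)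
          (fun w α => Q (c * w.length) fun v =>
            Pool.Agent.Helper81.IC.Within P C w (α ++ v))) ∧
      (∀ (P : List Ins) (d : ℕ), 0 < d → ∀ C : ℝ,
        Hard L c (fun w α => ∃ t, Pool.Agent.Helper81.RP.AcceptsAt P w α t)
          (Pool.Agent.Helper81.RR.Within P d C) ∧
        Hard L c (fun w α => Q (c * w.length) fun v =>
            ∃ t, Pool.Agent.Helper81.RP.AcceptsAt P w (α ++ v) t)
          (fun w α => Q (c * w.length) fun v =>
            Pool.Agent.Helper81.RR.Within P d C w (α ++ v))) ∧
      ∀ (K : ℕ) (A : Reader K) (C : ℝ),
        Hard L c (fun w α => ∃ t, A.AcceptsAt w α t) (A.Within C) ∧
        Hard L c (fun w α => Q (c * w.length) fun v => ∃ t, A.AcceptsAt w (α ++ v) t)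
          (fun w α => Q (c * w.length) fun v => A.Within C w (α ++ v)) :=
  Pool.Agent.Helper65.BR.cached c hc

end Pool.Agent.Results.MP_c578c8_lc.CacheMisses
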