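import Pool.Agent.Helper65.LinSpace.MainV

open Pool.Agent.Helper65.LinSpace

namespace Pool.Agent.Results.MP_c578c8_lc.FastCellularAutomata

/-- **A language in linear space which is hard almost everywhere for fast cellular automata of all
dimensions.** There is an infinite and coinfinite language `L` in `DSPACE(n)` such that every
`d`-dimensional cellular automaton (`d ≥ 1` arbitrary) all of whose accepted words are in `L`, or
all of whose accepted words are outside `L`, accepts only finitely many words `w` with at most
`n = |w|` guessed bits within `C n^(1 + 1/d) / log^3 n` steps, for every `C`. -/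
theorem result : ∃ L : Set (List Bool), DLINSPACE L ∧ L.Infinite ∧ Lᶜ.Infinite ∧
    ∀ (d : ℕ) [NeZero d] (A : CA d) (C : ℝ), A.language ⊆ L ∨ A.language ⊆ Lᶜ →
      (A.accepted (fun n => n) fun n =>
        C * ((n : ℝ) + 1) ^ (1 + 1 / (d : ℝ)) / Real.log ((n : ℝ) + 2) ^ 3).Finite :=
  mainA'

end Pool.Agent.Results.MP_c578c8_lc.FastCellularAutomata
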