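import Pool.Agent.Helper65.HCS.Final5

open Pool.Agent.Helper65.LinSpace Pool.Agent.Helper28.Ram Pool.Agent.Helper65.HC
open Pool.Agent.Helper65.HCS
open Pool.Agent.Helper81.Gen4 (Q)
open Pool.Agent.Helper31.Gen5 (Hard)
open Pool.Agent.Helper81.Sus2 (Decomp)

namespace Pool.Agent.Results.MP_c578c8_lc.UnboundedFanIn

/-- **Circuits with gates of unbounded fan-in.** Let `c` be a number. A circuit has gates
`0, 1, 2, …` with words as values; the first gates are the letters of the input word and of an advice
word. A gate reads the values of all gates before it, one after the other, with a memory of `s` bits,
and then gives its value, of at most `s` bits. For example it can be a threshold gate with arbitrary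
weights of `s - log n` bits, or a gate with any commutative or non-commutative operation. The functions
which describe the circuit are computed in linear space. Languages which are accepted by such circuits
with `C n^2 / log^4 n` gates (for `s = O(log n)`; in general `x s l^3 ≤ C (n + 1)^2` for `x` gates) are in
`DSPACE(n)`. There is a language `L` in `DSPACE(n)` which is hard (`Hard`) for all such circuits:

* On average: for every circuit and every `C` there is a `c'` such that for `M = L` and for `M` the
  complement of `L`, for all `n` and all advice words `α`, of any length, the circuit is correct within
  these bounds on at most `2^n / 2 + c' (|α| + 1) 2^((n + |α| / c) / 2)` words of length `n`. So `L` is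
  hard even with `(c - ε) n` bits of advice.
* Relative to the errors: if the circuit accepts `e` words of length `n` which are not in `M`, then it
  accepts within the bounds at most `(√e + c' (|α| + 1) 2^(|α| / (2 c)))^2` words of length `n` in `M`.
* Almost everywhere: if the circuit without advice accepts only finitely many words which are not in
  `M`, then it accepts only finitely many words within the bounds.

The acceptance condition `Q` has `c n` letters with alternating quantifiers, then a majority over `c n`
letters, then again `c n` letters with alternating quantifiers. So it covers `c n` random letters with
two-sided error, nondeterminism, alternation, and the combinations in the classes `MA` and `AM`.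

Both parts hold even for circuits with up to `2^a` gates, `a = C n / log^2 n`, if among any `x`
consecutive gates before the accepting gate `r` there is a gate `u` such that the states of all gates `i`
with `u ≤ i ≤ r` after they have read the values of the gates before `u` are described by a word of at
most `c n` bits, from which a decompressor computes them with a memory of `a` bits (and random access to
the input, the advice and the description). The decompressor is chosen after `L`. For example, this
holds for layered circuits of any depth if in every stretch of `x` gates there is a cut through which at
most `c n` bits pass: the states of the later gates are functions of these bits. So if a circuit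
decides `L`, of whatever size, then for all but finitely many inputs in `L` it has a stretch of
`C n^2 / log^4 n` gates in which it carries, all the time, more than `c n` bits. -/
theorem result (c : ℕ) (hc : 0 < c) :
    (∀ (A : Circ) (E : Decomp) (L : Set (List Bool)) (C : ℝ),
      (∀ w, Q (c * w.length) (fun v => ∃ r, A.AcceptsAt w v r) → w ∈ L) →
      (∀ w ∈ L, Q (c * w.length) (Within A E c C w)) → DLINSPACE L) ∧
    ∃ L : Set (List Bool), DLINSPACE L ∧
      ∀ (A : Circ) (E : Decomp) (C : ℝ),
        Hard L c (fun w α => Q (c * w.length) fun v => ∃ r, A.AcceptsAt w (α ++ v) r)
          (fun w α => Q (c * w.length) fun v => Within A E c C w (α ++ v)) :=
  sustained5 c hc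

end Pool.Agent.Results.MP_c578c8_lc.UnboundedFanIn
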